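import Mathlib
import Pool.Agent.H8R2.Mob

set_option autoImplicit false

namespace Pool.Agent.Results.MP_c7efa6_co.FppNotCollapsing

open Pool.Agent.H8R2.Mob (isF isF_mono no_map fpp_of_complex)

/-! ### Definitions -/

/-- The comparability graph of an ordered set: distinct comparable elements are adjacent. -/
def comparabilityGraph (P : Type) [PartialOrder P] : SimpleGraph P where
  Adj x y := x ≠ y ∧ (x ≤ y ∨ y ≤ x)
  symm := ⟨fun _ _ h => ⟨h.1.symm, h.2.symm⟩⟩
  loopless := ⟨fun _ h => h.1 rfl⟩

/-- The maximal (under inclusion) cliques of a graph. -/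
def MaxCliques {V : Type} (G : SimpleGraph V) : Type := {Q : Set V // Maximal G.IsClique Q}

/-- The clique graph: its vertices are the maximal cliques of `G`, two distinct maximal cliques
being adjacent iff they share a vertex. -/
def cliqueGraph {V : Type} (G : SimpleGraph V) : SimpleGraph (MaxCliques G) where
  Adj Q R := Q ≠ R ∧ (Q.1 ∩ R.1).Nonempty
  symm := ⟨fun Q R h => ⟨h.1.symm, by rw [Set.inter_comm]; exact h.2⟩⟩
  loopless := ⟨fun _ h => h.1 rfl⟩

/-- A graph together with its type of vertices. -/
structure Graph where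
  /-- the vertices -/
  V : Type
  /-- the graph -/
  G : SimpleGraph V

/-- The iterated clique graphs `K^n(H)`. -/
def iteratedCliqueGraph : ℕ → Graph → Graph
  | 0, H => H
  | n + 1, H => ⟨MaxCliques (iteratedCliqueGraph n H).G, cliqueGraph (iteratedCliqueGraph n H).G⟩

/-- The fixed point property. -/
def FixedPointProperty (P : Type) [PartialOrder P] : Prop :=
  ∀ f : P → P, Monotone f → ∃ x, f x = x

/-- `P` has collapsing iterated clique graphs: some `K^n(G(P))` has exactly one vertex. -/
def HasCollapsingIteratedCliqueGraphs (P : Type) [PartialOrder P] : Prop :=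
  ∃ n : ℕ, Nat.card (iteratedCliqueGraph n ⟨P, comparabilityGraph P⟩).V = 1

/-! ### A nonzero class in the first cohomology of the clique complex survives `K` -/

/-- `G` carries a cocycle modulo two on its clique complex which is not a coboundary. -/
def Twisted {V : Type} (G : SimpleGraph V) : Prop :=
  ∃ c : V → V → ZMod 2,
    (∀ x y z, (x = y ∨ G.Adj x y) → (y = z ∨ G.Adj y z) → (x = z ∨ G.Adj x z) →
      c x y + c y z = c x z) ∧
    ¬ ∃ h : V → ZMod 2, ∀ x y, G.Adj x y → c x y = h x + h y

theorem two_mul_zero (a : ZMod 2) : a + a = 0 := by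
  revert a; decide

theorem Twisted.nontrivial {V : Type} {G : SimpleGraph V} (hG : Twisted G) : Nontrivial V := by
  obtain ⟨c, -, hc⟩ := hG
  by_contra h
  rw [not_nontrivial_iff_subsingleton] at h
  exact hc ⟨fun _ => 0, fun x y hxy => absurd (h.elim x y) hxy.ne⟩

theorem exists_max_clique {V : Type} [Finite V] (G : SimpleGraph V) (s : Set V)
    (hs : G.IsClique s) : ∃ Q : MaxCliques G, s ⊆ Q.1 := by
  obtain ⟨Q, hsQ, hQ⟩ := (Set.toFinite {s : Set V | G.IsClique s}).exists_le_maximal
    (show s ∈ {s : Set V | G.IsClique s} from hs)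
  exact ⟨⟨Q, hQ⟩, hsQ⟩

theorem MaxCliques.clique {V : Type} {G : SimpleGraph V} (Q : MaxCliques G) {x y : V}
    (hx : x ∈ Q.1) (hy : y ∈ Q.1) : x = y ∨ G.Adj x y := by
  by_cases h : x = y
  · exact Or.inl h
  · exact Or.inr (Q.2.1 hx hy h)

theorem MaxCliques.nonempty {V : Type} {G : SimpleGraph V} [Nonempty V] (Q : MaxCliques G) :
    Q.1.Nonempty := by
  by_contra h
  rw [Set.not_nonempty_iff_eq_empty] at h
  obtain ⟨v⟩ := ‹Nonempty V›
  have h1 : G.IsClique {v} := SimpleGraph.isClique_singleton v
  have h2 : ({v} : Set V) ≤ Q.1 := Q.2.2 h1 (by rw [h]; exact Set.empty_subset _)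
  rw [h] at h2
  exact h2 (Set.mem_singleton v)

theorem Twisted.cliqueGraph {V : Type} [Finite V] {G : SimpleGraph V} (hG : Twisted G) :
    Twisted (cliqueGraph G) := by
  classical
  have : Nonempty V := hG.nontrivial.to_nonempty
  obtain ⟨c, hc, hnc⟩ := hG
  have hcxx : ∀ x, c x x = 0 := by
    intro x
    have h := hc x x x (Or.inl rfl) (Or.inl rfl) (Or.inl rfl)
    have h2 := two_mul_zero (c x x)
    rw [h] at h2
    exact h2
  -- base points of the maximal cliques
  choose b hb using fun Q : MaxCliques G => Q.nonempty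
  -- potential on a clique
  let f : MaxCliques G → V → ZMod 2 := fun Q x => c (b Q) x
  have hf : ∀ (Q : MaxCliques G) (x y : V), x ∈ Q.1 → y ∈ Q.1 → c x y = f Q x + f Q y := by
    intro Q x y hx hy
    have h := hc (b Q) x y (Q.clique (hb Q) hx) (Q.clique hx hy) (Q.clique (hb Q) hy)
    have h2 := two_mul_zero (c (b Q) x)
    show c x y = c (b Q) x + c (b Q) y
    rw [← h, ← add_assoc, h2, zero_add]
  have hwd : ∀ (Q R : MaxCliques G) (x y : V), x ∈ Q.1 → x ∈ R.1 → y ∈ Q.1 → y ∈ R.1 →
      f Q x + f R x = f Q y + f R y := by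
    intro Q R x y hxQ hxR hyQ hyR
    have h1 := hf Q x y hxQ hyQ
    have h2 := hf R x y hxR hyR
    rw [h1] at h2
    generalize f Q x = a at *
    generalize f Q y = a' at *
    generalize f R x = d at *
    generalize f R y = d' at *
    clear h1
    revert a a' d d'
    decide
  let c' : MaxCliques G → MaxCliques G → ZMod 2 := fun Q R =>
    if h : (Q.1 ∩ R.1).Nonempty then f Q h.choose + f R h.choose else 0
  have hc' : ∀ (Q R : MaxCliques G) (x : V), x ∈ Q.1 → x ∈ R.1 → c' Q R = f Q x + f R x := by
    intro Q R x hxQ hxR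
    have h : (Q.1 ∩ R.1).Nonempty := ⟨x, hxQ, hxR⟩
    show (if h : (Q.1 ∩ R.1).Nonempty then f Q h.choose + f R h.choose else 0) = _
    rw [dif_pos h]
    exact hwd Q R _ _ h.choose_spec.1 h.choose_spec.2 hxQ hxR
  have hmeet : ∀ Q R : MaxCliques G, (Q = R ∨ (FppNotCollapsing.cliqueGraph G).Adj Q R) →
      ∃ x, x ∈ Q.1 ∧ x ∈ R.1 := by
    intro Q R h
    rcases h with h | h
    · obtain ⟨x, hx⟩ := Q.nonempty
      exact ⟨x, hx, h ▸ hx⟩
    · obtain ⟨x, hx⟩ := h.2
      exact ⟨x, hx.1, hx.2⟩
  refine ⟨c', ?_, ?_⟩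
  · intro Q R S hQR hRS hQS
    obtain ⟨x, hxQ, hxR⟩ := hmeet Q R hQR
    obtain ⟨y, hyR, hyS⟩ := hmeet R S hRS
    obtain ⟨z, hzQ, hzS⟩ := hmeet Q S hQS
    rw [hc' Q R x hxQ hxR, hc' R S y hyR hyS, hc' Q S z hzQ hzS]
    have h1 := hf R x y hxR hyR
    have h2 := hf S y z hyS hzS
    have h3 := hf Q x z hxQ hzQ
    have h4 := hc x y z (R.clique hxR hyR) (S.clique hyS hzS) (Q.clique hxQ hzQ)
    rw [h1, h2, h3] at h4
    generalize f Q x = a1 at *
    generalize f Q z = a2 at *
    generalize f R x = a3 at *
    generalize f R y = a4 at *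
    generalize f S y = a5 at *
    generalize f S z = a6 at *
    clear h1 h2 h3
    revert a1 a2 a3 a4 a5 a6
    decide
  · rintro ⟨g, hg⟩
    apply hnc
    -- a maximal clique through every vertex
    have hex : ∀ x : V, ∃ Q : MaxCliques G, x ∈ Q.1 := by
      intro x
      obtain ⟨Q, hQ⟩ := exists_max_clique G {x} (SimpleGraph.isClique_singleton x)
      exact ⟨Q, hQ (Set.mem_singleton x)⟩
    choose q hq using hex
    have hgQR : ∀ (Q R : MaxCliques G) (x : V), x ∈ Q.1 → x ∈ R.1 →
        f Q x + g Q = f R x + g R := by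
      intro Q R x hxQ hxR
      by_cases h : Q = R
      · rw [h]
      · have h1 := hg Q R ⟨h, ⟨x, hxQ, hxR⟩⟩
        rw [hc' Q R x hxQ hxR] at h1
        generalize f Q x = a1 at *
        generalize f R x = a2 at *
        generalize g Q = a3 at *
        generalize g R = a4 at *
        revert a1 a2 a3 a4
        decide
    refine ⟨fun x => f (q x) x + g (q x), ?_⟩
    intro x y hxy
    obtain ⟨Q, hQ⟩ := exists_max_clique G {x, y} (by
      rw [SimpleGraph.isClique_pair]
      exact fun _ => hxy)
    have hx : x ∈ Q.1 := hQ (Set.mem_insert _ _)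
    have hy : y ∈ Q.1 := hQ (Set.mem_insert_of_mem _ (Set.mem_singleton _))
    have h1 := hgQR (q x) Q x (hq x) hx
    have h2 := hgQR (q y) Q y (hq y) hy
    have h3 := hf Q x y hx hy
    show c x y = (f (q x) x + g (q x)) + (f (q y) y + g (q y))
    rw [h1, h2, h3]
    generalize f Q x = a1
    generalize f Q y = a2
    generalize g Q = a3
    revert a1 a2 a3
    decide

theorem finite_iterated (n : ℕ) (H : Graph) (hH : Finite H.V) :
    Finite (iteratedCliqueGraph n H).V := by
  induction n with
  | zero => exact hH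
  | succ n ih =>
    have := ih
    exact (inferInstance : Finite {Q : Set (iteratedCliqueGraph n H).V //
      Maximal (iteratedCliqueGraph n H).G.IsClique Q})

theorem twisted_iterated (n : ℕ) (H : Graph) (hH : Finite H.V) (hT : Twisted H.G) :
    Twisted (iteratedCliqueGraph n H).G := by
  induction n with
  | zero => exact hT
  | succ n ih =>
    have := finite_iterated n H hH
    exact ih.cliqueGraph

/-! ### The ordered set -/

/-- The face poset of a six vertex triangulation of the Moebius band (28 elements). -/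
abbrev M : Type := {s : Finset (Fin 6) // isF s = true}

theorem M_nonempty (x : M) : x.1.Nonempty := by
  have := x.2
  simp only [isF, Bool.and_eq_true, decide_eq_true_eq] at this
  exact this.1

theorem fpp_M : FixedPointProperty M := by
  intro f hf
  refine fpp_of_complex (P := M) (fun x => x.1) (fun x y h => h) (fun x y h => h)
    (fun s => isF s = true) ?_ ?_ ?_ ?_ no_map ⟨f, hf⟩
  · intro s hs
    exact ⟨⟨s, hs⟩, rfl⟩
  · intro x; exact x.2
  · intro s hs
    simp only [isF, Bool.and_eq_true, decide_eq_true_eq] at hs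
    exact hs.1
  · intro s t hs hst ht; exact isF_mono hs hst ht

/-- the cocycle on the edges of the triangulation -/
def phi (a b : Fin 6) : ZMod 2 :=
  if (a, b) ∈ ([(0, 2), (2, 0), (0, 3), (3, 0), (1, 2), (2, 1), (1, 4), (4, 1), (3, 4), (4, 3)] :
    List (Fin 6 × Fin 6)) then 1 else 0

theorem phi_cocycle : ∀ a b c : Fin 6, isF {a, b, c} = true → phi a b + phi b c = phi a c := by
  decide +kernel

theorem twisted_M : Twisted (comparabilityGraph M) := by
  classical
  choose m hm using M_nonempty
  have key : ∀ (a b : Fin 6) (t : M), a ∈ t.1 → b ∈ t.1 → ∀ c ∈ t.1,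
      phi a b + phi b c = phi a c := by
    intro a b t ha hb c hc
    apply phi_cocycle
    refine isF_mono ⟨a, Finset.mem_insert_self _ _⟩ ?_ t.2
    intro x hx
    simp only [Finset.mem_insert, Finset.mem_singleton] at hx
    rcases hx with rfl | rfl | rfl
    · exact ha
    · exact hb
    · exact hc
  have hcomp : ∀ x y : M, (x = y ∨ (comparabilityGraph M).Adj x y) → (x ≤ y ∨ y ≤ x) := by
    intro x y h
    rcases h with h | h
    · exact Or.inl h.le
    · exact h.2
  refine ⟨fun x y => phi (m x) (m y), ?_, ?_⟩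
  · intro x y z hxy hyz hxz
    have h1 := hcomp x y hxy
    have h2 := hcomp y z hyz
    have h3 := hcomp x z hxz
    have : ∃ t : M, x ≤ t ∧ y ≤ t ∧ z ≤ t := by
      rcases h1 with h1 | h1
      · rcases h2 with h2 | h2
        · exact ⟨z, h1.trans h2, h2, le_rfl⟩
        · exact ⟨y, h1, le_rfl, h2⟩
      · rcases h3 with h3 | h3
        · exact ⟨z, h3, h1.trans h3, le_rfl⟩
        · exact ⟨x, le_rfl, h1, h3⟩
    obtain ⟨t, hxt, hyt, hzt⟩ := this
    exact key (m x) (m y) t (hxt (hm x)) (hyt (hm y)) (m z) (hzt (hm z))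
  · rintro ⟨h, hh⟩
    have vert : ∀ a : Fin 6, isF {a} = true := by decide +kernel
    -- on the edges of the triangulation the cocycle is a coboundary
    have edge : ∀ a b : Fin 6, a ≠ b → isF {a, b} = true →
        phi a b = h ⟨{a}, vert a⟩ + h ⟨{b}, vert b⟩ := by
      intro a b hab hF
      let e : M := ⟨{a, b}, hF⟩
      have hma : m ⟨{a}, vert a⟩ = a := Finset.mem_singleton.1 (hm ⟨{a}, vert a⟩)
      have hmb : m ⟨{b}, vert b⟩ = b := Finset.mem_singleton.1 (hm ⟨{b}, vert b⟩)
      have ha : a ∈ e.1 := Finset.mem_insert_self _ _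
      have hb : b ∈ e.1 := Finset.mem_insert_of_mem (Finset.mem_singleton_self _)
      have h1 := hh ⟨{a}, vert a⟩ e ⟨by
          intro hc
          have : b ∈ ({a} : Finset (Fin 6)) := by
            have h := congrArg Subtype.val hc
            rw [show ({a} : Finset (Fin 6)) = e.1 from h]
            exact hb
          exact hab (Finset.mem_singleton.1 this).symm, Or.inl (by
          show ({a} : Finset (Fin 6)) ⊆ e.1
          exact Finset.singleton_subset_iff.2 ha)⟩
      have h2 := hh ⟨{b}, vert b⟩ e ⟨by
          intro hc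
          have : a ∈ ({b} : Finset (Fin 6)) := by
            have h := congrArg Subtype.val hc
            rw [show ({b} : Finset (Fin 6)) = e.1 from h]
            exact ha
          exact hab (Finset.mem_singleton.1 this), Or.inl (by
          show ({b} : Finset (Fin 6)) ⊆ e.1
          exact Finset.singleton_subset_iff.2 hb)⟩
      beta_reduce at h1 h2
      rw [hma] at h1
      rw [hmb] at h2
      have h3 := key a b e ha hb (m e) (hm e)
      rw [h1, h2] at h3
      generalize h ⟨{a}, vert a⟩ = a1 at *
      generalize h ⟨{b}, vert b⟩ = a2 at *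
      generalize h e = a3 at *
      generalize phi a b = a4 at *
      clear h1 h2
      revert a1 a2 a3 a4
      decide
    have e1 := edge 0 2 (by decide) (by decide +kernel)
    have e2 := edge 2 4 (by decide) (by decide +kernel)
    have e3 := edge 0 4 (by decide) (by decide +kernel)
    have p1 : phi 0 2 = 1 := by decide +kernel
    have p2 : phi 2 4 = 0 := by decide +kernel
    have p3 : phi 0 4 = 0 := by decide +kernel
    rw [p1] at e1
    rw [p2] at e2
    rw [p3] at e3
    generalize h ⟨{0}, vert 0⟩ = a1 at *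
    generalize h ⟨{2}, vert 2⟩ = a2 at *
    generalize h ⟨{4}, vert 4⟩ = a3 at *
    revert a1 a2 a3
    decide

/-- **Negative answer to Q1.** There is a finite nonempty ordered set with the fixed point property
all of whose iterated clique graphs have at least two vertices; so it does not have collapsing
iterated clique graphs. -/
theorem result : ∃ (P : Type) (_ : PartialOrder P) (_ : Finite P) (_ : Nonempty P),
    FixedPointProperty P ∧
      (∀ n : ℕ, 2 ≤ Nat.card (iteratedCliqueGraph n ⟨P, comparabilityGraph P⟩).V) ∧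
      ¬ HasCollapsingIteratedCliqueGraphs P := by
  have key : ∀ n : ℕ, 2 ≤ Nat.card (iteratedCliqueGraph n ⟨M, comparabilityGraph M⟩).V := by
    intro n
    have := finite_iterated n ⟨M, comparabilityGraph M⟩ (inferInstance : Finite M)
    have := (twisted_iterated n ⟨M, comparabilityGraph M⟩ (inferInstance : Finite M)
      twisted_M).nontrivial
    exact Finite.one_lt_card
  refine ⟨M, inferInstance, inferInstance, twisted_M.nontrivial.to_nonempty, fpp_M, key, ?_⟩
  rintro ⟨n, hn⟩
  have := key n
  omega

end Pool.Agent.Results.MP_c7efa6_co.FppNotCollapsing
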